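import Pool.Agent.Helper38.TH.GoalsD
import Pool.Agent.Helper38.FD.Twist
import Pool.Agent.Helper13.RL.GOO2
import Pool.Agent.Helper50.RS.RS
import Pool.Agent.Helper51.SigLeo.Bridge

/-!
# Project TH (MP_fc6b1e_nt): the Leopoldt statement in a larger field (D_EIG)
-/

set_option autoImplicit false

namespace Pool.Agent.Helper60.TH

open NumberField Module TensorProduct
open Pool.Agent.Helper51.SigLeo Pool.Agent.Helper51.RP Pool.Agent.Helper38.TH
open Pool.Agent.Helper38.FD (Chr CutsOut LeopoldtFor Restricts isGalois_of_cutsOut exists_desc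
  exists_restricts exists_lift)
open Pool.Agent.Helper42.RD (TSet)
open Pool.Agent.Helper79.RD (mem_of_fixed)
open Pool.Agent.Helper13.RL (bc_inj ups ups_inj ups_equiv log_ups el_ups)
open Pool.Agent.Helper13.RS (bc bc_comp bc_extEnd bc_id extHom_bc el el_inj el_add el_unitsHom)

section norm

variable {k : Type} [Field k]

theorem bc_sum {A B : Type} [AddCommGroup A] [AddCommGroup B] {ι : Type} (s : Finset ι)
    (f : ι → A →+ B) (z : k ⊗[ℤ] A) : bc k (∑ i ∈ s, f i) z = ∑ i ∈ s, bc k (f i) z := by
  unfold bc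
  induction z with
  | zero => simp
  | tmul x y => simp [TensorProduct.tmul_sum]
  | add x y hx hy => simp only [map_add, hx, hy, Finset.sum_add_distrib]

variable {H E : Type} [Field H] [Field E] [Algebra H E]

/-- The norm of units. -/
noncomputable def nrm (H E : Type) [Field H] [Field E] [Algebra H E] :
    Additive (𝓞 E)ˣ →+ Additive (𝓞 H)ˣ :=
  AddMonoidHom.mk' (fun u ↦ .ofMul (Units.map (RingOfIntegers.norm H : 𝓞 E →* 𝓞 H) u.toMul))
    fun _ _ ↦ congrArg Additive.ofMul (map_mul _ _ _)

theorem el_nrm (u : Additive (𝓞 E)ˣ) : el (nrm H E u) = Algebra.norm H (el u) := rfl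

theorem el_zero : el (0 : Additive (𝓞 E)ˣ) = 1 := by
  unfold el
  simp

theorem el_sum {ι : Type} (s : Finset ι) (f : ι → Additive (𝓞 E)ˣ) :
    el (∑ i ∈ s, f i) = ∏ i ∈ s, el (f i) := by
  classical
  induction s using Finset.induction_on with
  | empty => simp [el_zero]
  | insert a s ha ih => rw [Finset.sum_insert ha, Finset.prod_insert ha, el_add, ih]

theorem exists_norm [FiniteDimensional H E] [IsGalois H E] (v : k ⊗[ℤ] Additive (𝓞 E)ˣ)
    (hv : ∀ h : E ≃ₐ[H] E, extEnd (unitsHom h) v = v) :
    bc k (ups (algebraMap H E)) (bc k (nrm H E) v) = (Fintype.card (E ≃ₐ[H] E) : k) • v := by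
  have h1 : (ups (algebraMap H E)).comp (nrm H E) = ∑ h : E ≃ₐ[H] E, unitsHom h := by
    refine AddMonoidHom.ext fun u => ?_
    apply el_inj
    rw [AddMonoidHom.comp_apply, el_ups, el_nrm, Algebra.norm_eq_prod_automorphisms,
      AddMonoidHom.finsetSum_apply, el_sum]
    rfl
  rw [bc_comp, h1, bc_sum]
  have h2 : ∀ h ∈ (Finset.univ : Finset (E ≃ₐ[H] E)), bc k (unitsHom h) v = v :=
    fun h _ => hv h
  rw [Finset.sum_congr rfl h2, Finset.sum_const, Finset.card_univ, Nat.cast_smul_eq_nsmul]

end norm

/-- A vector with the right eigenvalues is in the image of `e_χ`. -/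
theorem eChi_of_eig {K H A : Type} [Field K] [Field H] [Algebra K H] [FiniteDimensional K H]
    [IsGalois K H] [Field A] [CharZero A] (χ : (H ≃ₐ[K] H) →* Aˣ) (w : A ⊗[ℤ] Additive (𝓞 H)ˣ)
    (hw : ∀ h : H ≃ₐ[K] H, extEnd (unitsHom h) w = ((χ h : Aˣ) : A) • w) :
    eChi (finrank K H) χ unitsHom w = w := by
  classical
  unfold eChi
  rw [finsum_eq_sum_of_fintype]
  have h1 : ∀ g ∈ (Finset.univ : Finset (H ≃ₐ[K] H)),
      ((χ g⁻¹ : Aˣ) : A) • extEnd (unitsHom g) w = w := by
    intro g _
    rw [hw, smul_smul, ← Units.val_mul, ← map_mul, inv_mul_cancel, map_one, Units.val_one,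
      one_smul]
  rw [Finset.sum_congr rfl h1, Finset.sum_const, Finset.card_univ, ← Nat.card_eq_fintype_card,
    IsGalois.card_aut_eq_finrank, ← Nat.cast_smul_eq_nsmul A, smul_smul, inv_mul_cancel₀,
    one_smul]
  exact_mod_cast (finrank_pos (R := K) (M := H)).ne'

theorem d_eig : D_EIG := by
  intro p _ K _ _ ιinf ιp Lg S E _ _ ξ hξ
  have hfE : FiniteDimensional K E := FiniteDimensional.right ℚ K E
  have hle : ∀ H : IntermediateField K (AlgebraicClosure K), CutsOut ξ H → H ≤ E := by
    intro H hH y hy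
    apply mem_of_fixed
    intro g hg
    exact (hH g).1 (hξ g hg) y hy
  have hgΩ : IsGalois K (AlgebraicClosure K) := inferInstance
  have hgE : IsGalois K E := { to_isSeparable := inferInstance, to_normal := inferInstance }
  constructor
  · rintro ⟨H, hfH, hcut, χ', hχ', hinj⟩ v hv hlog
    have gH := isGalois_of_cutsOut hcut
    have hHE := hle H hcut
    let _ : Algebra H E := (IntermediateField.inclusion hHE).toRingHom.toAlgebra
    have : IsScalarTower K H E := IsScalarTower.of_algebraMap_eq fun x => rfl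
    have : FiniteDimensional H E := FiniteDimensional.right K H E
    have : IsGalois H E := IsGalois.tower_top_of_isGalois K H E
    have : NumberField H := NumberField.of_module_finite K H
    have hi : ∀ x : H, ((algebraMap H E x : E) : AlgebraicClosure K) = x := fun x => rfl
    -- `v` is fixed by `Gal(E/H)`
    have hfix : ∀ h : E ≃ₐ[H] E, extEnd (unitsHom h) v = v := by
      intro h
      obtain ⟨g, hg⟩ := exists_lift (Ω := AlgebraicClosure K) (H := E) (h.restrictScalars K)
      have e1 : unitsHom h = actU E g := by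
        refine AddMonoidHom.ext fun u => ?_
        apply el_inj
        apply Subtype.ext
        have e2 := hg (el u)
        have e3 := AlgEquiv.restrictNormalHom_apply E g (el u)
        exact (e3.trans e2).symm
      rw [e1, hv g]
      have e4 : ξ g = 1 := by
        rw [hcut g]
        intro x hx
        have e5 := hg (algebraMap H E ⟨x, hx⟩)
        have e6 : (h.restrictScalars K) (algebraMap H E ⟨x, hx⟩) = algebraMap H E ⟨x, hx⟩ :=
          h.commutes ⟨x, hx⟩
        rw [e6] at e5
        exact e5
      rw [e4, Units.val_one, one_smul]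
    have hn := exists_norm v hfix
    obtain ⟨w, hw⟩ : ∃ w, w = bc ℂ_[p] (nrm H E) v := ⟨_, rfl⟩
    rw [← hw] at hn
    have hn0 : ((Fintype.card (E ≃ₐ[H] E) : ℕ) : ℂ_[p]) ≠ 0 := by
      exact_mod_cast Fintype.card_ne_zero
    -- `w` is an eigenvector
    have heig : ∀ h : H ≃ₐ[K] H, extEnd (unitsHom h) w = ((χ' h : ℂ_[p]ˣ) : ℂ_[p]) • w := by
      intro h
      obtain ⟨g, hg⟩ := exists_lift (Ω := AlgebraicClosure K) (H := H) h
      apply bc_inj (ups (algebraMap H E)) (ups_inj (algebraMap H E))
      rw [← ups_equiv (algebraMap H E) h (AlgEquiv.restrictNormalHom E g), map_smul, hn, map_smul]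
      · have e1 := hv g
        rw [← hχ' g h hg]
        unfold actU at e1
        rw [e1, smul_comm]
      · intro x
        apply Subtype.ext
        have e2 := AlgEquiv.restrictNormalHom_apply E g (algebraMap H E x)
        exact e2.trans (hg x)
    have hw0 : w = 0 := by
      rw [← eChi_of_eig χ' w heig]
      apply hinj
      rintro ℓ ⟨σ, hσ, rfl⟩
      rw [eChi_of_eig χ' w heig]
      obtain ⟨τ, hτ⟩ : ∃ τ : E →+* ℂ_[p], τ.comp (algebraMap H E) = ιp.comp σ := by
        let _ : Algebra H ℂ_[p] := (ιp.comp σ).toAlgebra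
        have hal : Algebra.IsAlgebraic H E := Algebra.IsAlgebraic.of_finite H E
        refine ⟨(IsAlgClosed.lift : E →ₐ[H] ℂ_[p]).toRingHom, ?_⟩
        ext x
        exact (IsAlgClosed.lift : E →ₐ[H] ℂ_[p]).commutes x
      rw [← hτ, ← log_ups, hn, map_smul, hlog τ, smul_zero]
      refine ⟨σ.comp (algebraMap K H), hσ, ?_⟩
      rw [← RingHom.comp_assoc, ← hτ, RingHom.comp_assoc]
      rfl
    rw [hw0, map_zero] at hn
    exact (smul_eq_zero.1 hn.symm).resolve_left hn0
  · intro hall
    -- the field cut out by `ξ`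
    obtain ⟨H, hcut⟩ : ∃ H : IntermediateField K (AlgebraicClosure K), CutsOut ξ H := by
      have hop : IsOpen (E.fixingSubgroup : Set (AlgebraicClosure K ≃ₐ[K] AlgebraicClosure K)) :=
        E.fixingSubgroup_isOpen
      have hle' : E.fixingSubgroup ≤ ξ.ker := by
        intro g hg
        rw [MonoidHom.mem_ker]
        exact hξ g ((IntermediateField.mem_fixingSubgroup_iff _ _).1 hg)
      have hop' : IsOpen (ξ.ker : Set (AlgebraicClosure K ≃ₐ[K] AlgebraicClosure K)) :=
        Subgroup.isOpen_mono hle' hop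
      have hcl : IsClosed (ξ.ker : Set (AlgebraicClosure K ≃ₐ[K] AlgebraicClosure K)) :=
        Subgroup.isClosed_of_isOpen _ hop'
      have h1 := InfiniteGalois.fixingSubgroup_fixedField
        (⟨ξ.ker, hcl⟩ : ClosedSubgroup (AlgebraicClosure K ≃ₐ[K] AlgebraicClosure K))
      refine ⟨IntermediateField.fixedField ξ.ker, fun g => ?_⟩
      rw [← MonoidHom.mem_ker, ← IntermediateField.mem_fixingSubgroup_iff]
      have h2 : (IntermediateField.fixedField ξ.ker).fixingSubgroup = ξ.ker := h1
      rw [h2]
    have gH := isGalois_of_cutsOut hcut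
    have hHE := hle H hcut
    have hfH : FiniteDimensional K H := by
      refine FiniteDimensional.of_injective (IntermediateField.inclusion hHE).toLinearMap ?_
      exact (IntermediateField.inclusion hHE).toRingHom.injective
    have : NumberField H := NumberField.of_module_finite K H
    obtain ⟨i, hi⟩ : ∃ i : H →+* E, ∀ x : H, ((i x : E) : AlgebraicClosure K) = x :=
      ⟨(IntermediateField.inclusion hHE).toRingHom, fun x => rfl⟩
    obtain ⟨χ', hχ'⟩ := exists_desc (χ := ξ) (H := H) fun g hg => (hcut g).2 hg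
    refine ⟨H, hfH, hcut, χ', hχ', ?_⟩
    intro x hx
    apply bc_inj (ups i) (ups_inj i)
    rw [map_zero]
    apply hall
    · intro g
      obtain ⟨h, hh⟩ := exists_restricts (H := H) g
      unfold actU
      rw [ups_equiv i h (AlgEquiv.restrictNormalHom E g), Pool.Agent.Helper50.RS.eig_eChi,
        map_smul, hχ' g h hh]
      intro y
      apply Subtype.ext
      have e2 := AlgEquiv.restrictNormalHom_apply E g (i y)
      rw [hi] at e2
      refine e2.trans ((hh y).trans (hi _).symm)
    · intro τ hτ
      rw [log_ups]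
      apply hx
      obtain ⟨σ, hσ⟩ := exists_lift_embedding ιp (τ.comp i)
      obtain ⟨σ₀, g1, g2⟩ := hτ
      refine ⟨σ, ?_, ?_⟩
      · have g3 : σ.comp (algebraMap K H) = σ₀ := by
          apply Pool.Agent.Helper50.RS.comp_inj ιp
          show ιp.comp (σ.comp (algebraMap K _)) = ιp.comp σ₀
          rw [← g2, ← RingHom.comp_assoc, hσ]
          ext c
          exact congrArg τ (Subtype.ext (hi _))
        rw [g3]
        exact g1
      · rw [hσ]

end Pool.Agent.Helper60.TH
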