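import Pool.Agent.Helper38.TH.GoalsE
import Pool.Agent.Helper65.TH.TOR

/-! Packet TH-E_TOW of project TH (helper38, MP_fc6b1e_nt). -/

set_option autoImplicit false

namespace Pool.Agent.Helper60.TH

open NumberField Module
open Pool.Agent.Helper38.FD (Chr CutsOut)
open Pool.Agent.Helper38.FW (InDec)
open Pool.Agent.Helper38.TH

section

variable {p : ℕ} [Fact p.Prime]

/-- The field cut out by a character with open kernel (copied from `Pool/Agent/Helper38/FD/Split.lean`). -/
theorem exists_cutsOut {K Ω k : Type} [Field K] [Field Ω] [Algebra K Ω] [NormedField k]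
    [IsGalois K Ω] (χ : Chr K Ω k) (X : IntermediateField K Ω) [FiniteDimensional K X]
    (h : ∀ g : Ω ≃ₐ[K] Ω, (∀ x ∈ X, g x = x) → χ g = 1) :
    ∃ H : IntermediateField K Ω, FiniteDimensional K H ∧ CutsOut χ H := by
  have hle : X.fixingSubgroup ≤ χ.ker := by
    intro g hg
    rw [MonoidHom.mem_ker]
    exact h g ((IntermediateField.mem_fixingSubgroup_iff _ _).1 hg)
  have hopen : IsOpen (χ.ker : Set (Ω ≃ₐ[K] Ω)) :=
    Subgroup.isOpen_mono hle X.fixingSubgroup_isOpen
  have hclosed : IsClosed (χ.ker : Set (Ω ≃ₐ[K] Ω)) := Subgroup.isClosed_of_isOpen _ hopen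
  have hfix : (IntermediateField.fixedField χ.ker).fixingSubgroup = χ.ker :=
    InfiniteGalois.fixingSubgroup_fixedField ⟨χ.ker, hclosed⟩
  have hX : IntermediateField.fixedField χ.ker ≤ X := by
    rw [← InfiniteGalois.fixedField_fixingSubgroup X]
    exact IntermediateField.fixedField_antitone hle
  refine ⟨IntermediateField.fixedField χ.ker, ?_, ?_⟩
  · exact FiniteDimensional.of_injective (IntermediateField.inclusion hX).toLinearMap
      (IntermediateField.inclusion hX).injective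
  · intro g
    rw [← MonoidHom.mem_ker, ← IntermediateField.mem_fixingSubgroup_iff, hfix]

theorem next_root (n : ℕ) (x : ℂ_[p]) (hx : IsPrimitiveRoot x (p ^ n)) :
    ∃ y : ℂ_[p], y ^ p = x ∧ IsPrimitiveRoot y (p ^ (n + 1)) := by
  have hp : p.Prime := Fact.out
  rcases Nat.eq_zero_or_pos n with rfl | hn
  · have h1 : x = 1 := by
      rw [pow_zero] at hx
      exact IsPrimitiveRoot.one_right_iff.1 hx
    have : NeZero ((p : ℕ) : ℂ_[p]) := ⟨Nat.cast_ne_zero.2 hp.ne_zero⟩
    obtain ⟨y, hy⟩ := HasEnoughRootsOfUnity.exists_primitiveRoot ℂ_[p] p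
    refine ⟨y, ?_, ?_⟩
    · rw [h1]
      exact hy.pow_eq_one
    · simpa using hy
  · obtain ⟨y, hy⟩ := IsAlgClosed.exists_pow_nat_eq x hp.pos
    refine ⟨y, hy, ?_⟩
    have h1 : y ^ p ^ (n + 1) = 1 := by
      rw [pow_succ', pow_mul, hy]
      exact hx.pow_eq_one
    have h2 : ¬ y ^ p ^ n = 1 := by
      obtain ⟨m, rfl⟩ : ∃ m, n = m + 1 := ⟨n - 1, by omega⟩
      rw [pow_succ', pow_mul, hy]
      intro h3
      have h4 := hx.dvd_of_pow_eq_one _ h3
      have h5 := (Nat.pow_dvd_pow_iff_le_right hp.one_lt).1 h4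
      omega
    have h3 := orderOf_eq_prime_pow h2 h1
    have h4 := IsPrimitiveRoot.orderOf y
    rw [h3] at h4
    exact h4

/-- a compatible system of primitive roots of unity -/
theorem exists_roots : ∃ z : ℕ → ℂ_[p]ˣ, (∀ n, z (n + 1) ^ p = z n) ∧
    ∀ n, IsPrimitiveRoot (z n) (p ^ n) := by
  have hp : p.Prime := Fact.out
  choose f hf1 hf2 using fun (n : ℕ) (x : {x : ℂ_[p] // IsPrimitiveRoot x (p ^ n)}) =>
    next_root n x.1 x.2
  let g : ∀ n : ℕ, {x : ℂ_[p] // IsPrimitiveRoot x (p ^ n)} := fun n =>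
    Nat.rec ⟨1, by simp⟩ (fun n x => ⟨f n x, hf2 n x⟩) n
  have hg0 : ∀ n, (g n).1 ≠ 0 := by
    intro n h
    have h1 := (g n).2.pow_eq_one
    rw [h, zero_pow (pow_pos hp.pos n).ne'] at h1
    exact zero_ne_one h1
  refine ⟨fun n => Units.mk0 (g n).1 (hg0 n), fun n => ?_, fun n => ?_⟩
  · apply Units.ext
    rw [Units.val_pow_eq_pow_val, Units.val_mk0, Units.val_mk0]
    exact hf1 n (g n)
  · rw [← IsPrimitiveRoot.coe_units_iff]
    exact (g n).2

theorem val_succ (n : ℕ) (x : ℤ_[p]) :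
    (x.toZModPow n).val = (x.toZModPow (n + 1)).val % p ^ n := by
  have hp : p.Prime := Fact.out
  have : NeZero (p ^ n) := ⟨(pow_pos hp.pos n).ne'⟩
  have : NeZero (p ^ (n + 1)) := ⟨(pow_pos hp.pos (n + 1)).ne'⟩
  rw [← PadicInt.cast_toZModPow n (n + 1) (Nat.le_succ n) x, ← ZMod.natCast_val, ZMod.val_natCast]

theorem toZ_eq_zero (n : ℕ) (x : ℤ_[p]) : x.toZModPow n = 0 ↔ (p : ℤ_[p]) ^ n ∣ x := by
  rw [← RingHom.mem_ker, PadicInt.ker_toZModPow, Ideal.mem_span_singleton]

theorem eq_zero_of_dvd (x : ℤ_[p]) (h : ∀ n, (p : ℤ_[p]) ^ n ∣ x) : x = 0 := by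
  refine PadicInt.ext_of_toZModPow.1 fun n => ?_
  rw [map_zero]
  exact (toZ_eq_zero n x).2 (h n)

variable (p)

/-- the characters -/
noncomputable def eta {G : Type} [Group G] (z : ℕ → ℂ_[p]ˣ)
    (hz : ∀ n, IsPrimitiveRoot (z n) (p ^ n)) (c : G →* Multiplicative ℤ_[p]) (n : ℕ) :
    G →* ℂ_[p]ˣ where
  toFun g := z n ^ ((Multiplicative.toAdd (c g)).toZModPow n).val
  map_one' := by
    rw [map_one, toAdd_one, map_zero, ZMod.val_zero, pow_zero]
  map_mul' g h := by
    have : NeZero (p ^ n) := ⟨(pow_pos (Fact.out : p.Prime).pos n).ne'⟩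
    rw [map_mul, toAdd_mul, map_add, ZMod.val_add, ← pow_add]
    exact (pow_eq_pow_mod _ (hz n).pow_eq_one).symm

variable {p}

theorem eta_eq_one {G : Type} [Group G] (z : ℕ → ℂ_[p]ˣ)
    (hz : ∀ n, IsPrimitiveRoot (z n) (p ^ n)) (c : G →* Multiplicative ℤ_[p]) (n : ℕ) (g : G) :
    eta p z hz c n g = 1 ↔ (p : ℤ_[p]) ^ n ∣ Multiplicative.toAdd (c g) := by
  have : NeZero (p ^ n) := ⟨(pow_pos (Fact.out : p.Prime).pos n).ne'⟩
  rw [← toZ_eq_zero]
  show z n ^ ((Multiplicative.toAdd (c g)).toZModPow n).val = 1 ↔ _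
  rw [(hz n).pow_eq_one_iff_dvd]
  constructor
  · intro h
    have h1 := Nat.eq_zero_of_dvd_of_lt h (ZMod.val_lt _)
    exact (ZMod.val_eq_zero _).1 h1
  · intro h
    rw [h, ZMod.val_zero]
    exact dvd_zero _

end

open Pool.Agent.Helper65.TH (cyc cyc_spec exists_cyc enough)

theorem e_tow : E_TOW := by
  intro hL hI p _ K _ _
  have hp : p.Prime := Fact.out
  obtain ⟨l, hl1, hl2⟩ := hL p
  obtain ⟨z, hz1, hz2⟩ := exists_roots (p := p)
  have hd : 0 < 2 * (p - 1) := by
    have := hp.two_le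
    omega
  have hp0 : (p : ℤ_[p]) ≠ 0 := Nat.cast_ne_zero.2 hp.ne_zero
  set G := AlgebraicClosure K ≃ₐ[K] AlgebraicClosure K with hG
  set cy : G →* ℤ_[p]ˣ := cyc p K with hcy
  set ell : G →* Multiplicative ℤ_[p] := l.comp cy with hell
  -- not all zero
  have hne : ∃ n, ∃ g : G, ¬ (p : ℤ_[p]) ^ (n + 1) ∣ Multiplicative.toAdd (ell g) := by
    obtain ⟨g, hg⟩ := exists_cyc p K (2 * (p - 1)) hd
    by_contra hcon
    push Not at hcon
    apply hg
    apply hl1
    refine eq_zero_of_dvd _ fun n => ?_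
    exact (pow_dvd_pow _ (Nat.le_succ n)).trans (hcon n g)
  classical
  set a := Nat.find hne with ha
  obtain ⟨g₀, hg₀⟩ := Nat.find_spec hne
  have hall : ∀ g : G, (p : ℤ_[p]) ^ a ∣ Multiplicative.toAdd (ell g) := by
    intro g
    rcases Nat.eq_zero_or_pos a with h0 | h0
    · rw [h0, pow_zero]
      exact one_dvd _
    · obtain ⟨m, hm⟩ : ∃ m, a = m + 1 := ⟨a - 1, by omega⟩
      have h1 := Nat.find_min hne (m := m) (by omega)
      push Not at h1
      rw [hm]
      exact h1 g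
  choose c' hc' using hall
  have hpa : (p : ℤ_[p]) ^ a ≠ 0 := pow_ne_zero _ hp0
  set c : G →* Multiplicative ℤ_[p] :=
    { toFun := fun g => Multiplicative.ofAdd (c' g)
      map_one' := by
        have h1 := hc' 1
        rw [map_one, toAdd_one] at h1
        have h2 : c' 1 = 0 := by
          rcases mul_eq_zero.1 h1.symm with h3 | h3
          · exact absurd h3 hpa
          · exact h3
        rw [h2]
        rfl
      map_mul' := by
        intro g h
        have h1 := hc' (g * h)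
        rw [map_mul, toAdd_mul, hc' g, hc' h, ← mul_add] at h1
        have h2 := mul_left_cancel₀ hpa h1
        rw [← h2]
        rfl } with hc
  have hcc : ∀ g, Multiplicative.toAdd (ell g) = (p : ℤ_[p]) ^ a * Multiplicative.toAdd (c g) :=
    fun g => hc' g
  refine ⟨eta p z hz2 c, ⟨?_, ?_, ?_, ?_⟩, ?_⟩
  · refine MonoidHom.ext fun g => ?_
    show eta p z hz2 c 0 g = 1
    rw [eta_eq_one, pow_zero]
    exact one_dvd _
  · intro h
    have h1 : eta p z hz2 c 1 g₀ = 1 := by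
      rw [h]
      rfl
    rw [eta_eq_one, pow_one] at h1
    apply hg₀
    rw [← ha, hcc, pow_succ]
    exact mul_dvd_mul_left _ h1
  · intro n
    refine MonoidHom.ext fun g => ?_
    show (z (n + 1) ^ ((Multiplicative.toAdd (c g)).toZModPow (n + 1)).val) ^ p =
      z n ^ ((Multiplicative.toAdd (c g)).toZModPow n).val
    rw [← pow_mul, mul_comm, pow_mul, hz1, val_succ n]
    exact pow_eq_pow_mod _ (hz2 n).pow_eq_one
  · intro n
    obtain ⟨m, hm⟩ := hl2 (a + n)
    obtain ⟨ζ, hζ⟩ := HasEnoughRootsOfUnity.exists_primitiveRoot (AlgebraicClosure K) (p ^ m)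
    have hint : IsIntegral K ζ := Algebra.IsIntegral.isIntegral ζ
    have hfd : FiniteDimensional K (IntermediateField.adjoin K {ζ}) :=
      IntermediateField.adjoin.finiteDimensional hint
    refine exists_cutsOut _ (IntermediateField.adjoin K {ζ}) fun g hg => ?_
    rw [eta_eq_one]
    have h1 : g ζ = ζ := hg ζ (IntermediateField.mem_adjoin_simple_self K ζ)
    have h2 := cyc_spec p K g m ζ hζ.pow_eq_one
    rw [h1] at h2
    have h3 : (cyc p K g).val.toZModPow m = 1 := by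
      have : NeZero (p ^ m) := ⟨(pow_pos hp.pos m).ne'⟩
      rcases Nat.eq_zero_or_pos m with h0 | h0
      · subst h0
        have : Subsingleton (ZMod (p ^ 0)) := by
          rw [pow_zero]
          infer_instance
        exact Subsingleton.elim _ _
      · have h4 : 1 < p ^ m := Nat.one_lt_pow h0.ne' hp.one_lt
        have h5 : ζ ^ 1 = ζ ^ ((cyc p K g).val.toZModPow m).val := by
          rw [pow_one]
          exact h2
        have h6 := hζ.pow_inj h4 (ZMod.val_lt _) h5
        have : Fact (1 < p ^ m) := ⟨h4⟩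
        apply ZMod.val_injective
        rw [ZMod.val_one, ← h6]
    have h4 : (p : ℤ_[p]) ^ m ∣ ((cyc p K g : ℤ_[p]ˣ) : ℤ_[p]) - 1 := by
      rw [← toZ_eq_zero, map_sub, map_one, h3, sub_self]
    have h5 := hm _ h4
    have h6 : (p : ℤ_[p]) ^ a * (p : ℤ_[p]) ^ n ∣
        (p : ℤ_[p]) ^ a * Multiplicative.toAdd (c g) := by
      rw [← hcc, ← pow_add]
      exact h5
    exact (mul_dvd_mul_iff_left hpa).1 h6
  · intro τ
    obtain ⟨g, hg1, hg2⟩ := hI p K τ (2 * (p - 1)) hd
    have h1 : Multiplicative.toAdd (ell g) ≠ 0 := by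
      intro h
      exact hg2 (hl1 _ h)
    have h2 : ∃ n, ¬ (p : ℤ_[p]) ^ n ∣ Multiplicative.toAdd (c g) := by
      by_contra hcon
      push Not at hcon
      apply h1
      rw [hcc, eq_zero_of_dvd _ hcon, mul_zero]
    obtain ⟨n, hn⟩ := h2
    exact ⟨n, g, hg1, fun h => hn ((eta_eq_one z hz2 c n g).1 h)⟩

end Pool.Agent.Helper60.TH
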