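import Pool.Agent.Helper38.TH.GoalsC
import Pool.Agent.Helper30.PP.COSB
import Pool.Agent.Helper39.TH.TOSBG
import Pool.Agent.Helper62.TH.TFOU

/-! Packet TH-T_OSBV of project TH (helper38, MP_fc6b1e_nt).  The unweighted proof is by helper30
(`Pool/Agent/Helper30/PP/COSB.lean`), the Fourier expansion of the weight as in helper39's
`Pool/Agent/Helper39/TH/TOSBG.lean`, the weighted proof by helper49
(`Pool/Agent/Helper49/TH/TOSB1.lean`), adapted here to `TopV`. -/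

set_option autoImplicit false

namespace Pool.Agent.Helper60.TH

open Finset
open Pool.Agent.Helper17.PP
open Pool.Agent.Helper38.TH
open Pool.Agent.Helper30.PP (mem_blk nm_pos sum_swap decomp TT TT_norm rsj sm al be
  al_norm be_norm osc_eq upto_sum TT_insert rs_insert rs_eq)
open Pool.Agent.Helper39.TH (FF DD FF_two DD_norm FF_norm ex_char)

variable {p : ℕ} {B B₀ k U Λ C : Type} [Field k] [AddCommGroup U] [Module k U]
    [AddCommGroup Λ] [Module k Λ] [AddCommGroup C] (S : Sys p B B₀ k U Λ C)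

/-- the conditions on `r` -/
def cR (V : B → Prop) (i j : ℕ) (r : Finset B) : Prop :=
  Set.InjOn S.bs (r : Set B) ∧ (∀ q' ∈ r, S.spl q' → S.bl q' ≠ j) ∧
    ∀ q' ∈ r, ¬ S.spl q' → ¬ V q' → S.bl q' < i

/-- the condition on `P₁` -/
def cP (V : B → Prop) (r : Finset B) (P₁ : B) : Prop :=
  ¬ V P₁ ∧ ∀ q' ∈ r, S.bs P₁ ≠ S.bs q'

open Classical in
lemma cond_iff (V : B → Prop) (E i j : ℕ) (r : Finset B) (q P₁ : B) (hq : q ∉ r)
    (hP : P₁ ∉ insert q r) :
    (S.Fam (insert P₁ (insert q r)) ∧ (S.Wt E (insert P₁ (insert q r)) q ∧ S.bl q = j) ∧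
      (TopV S V (insert P₁ (insert q r)) P₁ ∧ S.bl P₁ = i)) ↔
    cR S V i j r ∧ (S.spl q ∧ S.bl q = j) ∧ (¬ S.spl P₁ ∧ S.bl P₁ = i) ∧ cP S V r P₁ ∧
      sm S E j r P₁ ∧ S.cls P₁ + (S.cls q + ∑ q' ∈ r, S.cls q') = S.cl₀ := by
  have hne : P₁ ≠ q := fun h => hP (h ▸ mem_insert_self _ _)
  have hPr : P₁ ∉ r := fun h => hP (mem_insert_of_mem h)
  constructor
  · rintro ⟨⟨f1, f2⟩, ⟨⟨-, w2, w3, w4⟩, hj⟩, ⟨⟨-, t2, t4, t3⟩, hi⟩⟩
    rw [sum_insert hP, sum_insert hq] at f2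
    refine ⟨⟨?_, ?_, ?_⟩, ⟨w2, hj⟩, ⟨t2, hi⟩, ⟨t4, ?_⟩, ?_, f2⟩
    · refine f1.mono ?_
      intro z hz
      simp only [coe_insert, Set.mem_insert_iff]
      exact Or.inr (Or.inr hz)
    · intro q' hq' hs
      rw [← hj]
      refine w3 q' (mem_insert_of_mem (mem_insert_of_mem hq')) ?_ hs
      rintro rfl
      exact hq hq'
    · intro q' hq' hs hV
      rw [← hi]
      refine t3 q' (mem_insert_of_mem (mem_insert_of_mem hq')) hs hV ?_
      rintro rfl
      exact hPr hq'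
    · intro q' hq' h
      have h1 := f1 (mem_insert_self _ _) (mem_insert_of_mem (mem_insert_of_mem hq')) h
      exact hPr (h1 ▸ hq')
    · intro D hD hb
      rw [← hj] at hb ⊢
      refine w4 D (hD.trans (insert_subset_insert _ (subset_insert _ _))) ?_ hb
      intro h
      rcases mem_insert.1 (hD h) with h1 | h1
      · exact hne h1.symm
      · exact hq h1
  · rintro ⟨⟨c1, c2, c3⟩, ⟨w2, hj⟩, ⟨t2, hi⟩, ⟨t4, hPr'⟩, hsm, f2⟩
    have hNbl : ∀ a b, S.bs a = S.bs b → S.bl a = S.bl b := fun a b h => by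
      unfold Sys.bl
      rw [S.bsN a b h]
    have hqr : ∀ q' ∈ r, S.bs q ≠ S.bs q' := fun q' hq' h =>
      c2 q' hq' ((S.bsS q q' h).1 w2) ((hNbl q q' h).symm.trans hj)
    have hPq : S.bs P₁ ≠ S.bs q := fun h => t2 ((S.bsS P₁ q h).2 w2)
    refine ⟨⟨?_, ?_⟩, ⟨⟨mem_insert_of_mem (mem_insert_self _ _), w2, ?_, ?_⟩, hj⟩,
      ⟨⟨mem_insert_self _ _, t2, t4, ?_⟩, hi⟩⟩
    · rw [coe_insert, coe_insert, Set.injOn_insert (by
        simp only [Set.mem_insert_iff, not_or]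
        exact ⟨hne, hPr⟩), Set.injOn_insert hq]
      refine ⟨⟨c1, ?_⟩, ?_⟩
      · rintro ⟨q', hq', h⟩
        exact hqr q' hq' h.symm
      · rintro ⟨q', hq', h⟩
        rcases hq' with rfl | hq'
        · exact hPq h.symm
        · exact hPr' q' hq' h.symm
    · rw [sum_insert hP, sum_insert hq]
      exact f2
    · intro q' hq' hne' hs
      rcases mem_insert.1 hq' with rfl | hq'
      · exact absurd hs t2
      rcases mem_insert.1 hq' with rfl | hq'
      · exact absurd rfl hne'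
      · rw [hj]
        exact c2 q' hq' hs
    · intro D hD hqD hb
      rw [hj] at hb ⊢
      refine hsm D ?_ hb
      intro z hz
      rcases mem_insert.1 (hD hz) with h1 | h1
      · exact mem_insert.2 (Or.inl h1)
      rcases mem_insert.1 h1 with h1 | h1
      · exact absurd (h1 ▸ hz) hqD
      · exact mem_insert_of_mem h1
    · intro P' hP' hs hV hne'
      rcases mem_insert.1 hP' with h1 | h1
      · exact absurd h1 hne'
      rcases mem_insert.1 h1 with h1 | h1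
      · exact absurd (h1 ▸ w2) hs
      · rw [hi]
        exact c3 P' h1 hs hV

open Classical in
/-- the summand for fixed `x, t, c, y` -/
noncomputable def gg [Algebra (ZMod p) k] [Fact p.Prime] [Fintype k] (V : B → Prop)
    (ψ : AddChar k ℂ) (ψ₁ : AddChar (ZMod p) ℂ) (E i j : ℕ) (s : ZMod p) (X : ℝ)
    (x : U) (t : k) (c y : B → k) (b : Finset B) (q P₁ : B) : ℂ :=
  if S.Fam b ∧ (S.Wt E b q ∧ S.bl q = j) ∧ (TopV S V b P₁ ∧ S.bl P₁ = i) then
    (Fintype.card k : ℂ) ^ (S.rs b q).card * TT S ψ ψ₁ E b q s x t c y *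
      (Real.exp (-(S.nm b / X)) : ℂ)
  else 0

open Classical in
/-- the indicator function of the condition on `P₁` -/
noncomputable def vv (V : B → Prop) (r : Finset B) (P₁ : B) : ℂ :=
  if cP S V r P₁ then 1 else 0

lemma vv_norm (V : B → Prop) (r : Finset B) (P₁ : B) : ‖vv S V r P₁‖ ≤ 1 := by
  unfold vv
  split_ifs <;> simp

open Classical in
lemma gg_eq [Algebra (ZMod p) k] [Fact p.Prime] [Fintype k] [Fintype C] (V : B → Prop)
    (ψ : AddChar k ℂ) (ψ₁ : AddChar (ZMod p) ℂ) (E i j : ℕ) (s : ZMod p) (X : ℝ) (hX : 0 < X)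
    (x : U) (t : k) (c y : B → k) (P r : Finset B) (hcR : cR S V i j r) (q P₁ : B)
    (hq : q ∈ P \ r) (hP : P₁ ∈ P \ insert q r) :
    gg S V ψ ψ₁ E i j s X x t c y (insert P₁ (insert q r)) q P₁ =
      if q ∈ (S.blk j).filter (fun q => S.spl q) then
        (if P₁ ∈ (S.blk i).filter (fun P => ¬ S.spl P) then
          ∑ γ : C, (Fintype.card k : ℂ) ^ (rsj S j r).card *
            (al S ψ E j c y P r γ P₁ * vv S V r P₁ * be S ψ ψ₁ E s x t c y P r γ q *
              ψ₁ (s * S.kap q P₁) *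
              (Real.exp (-((S.N q : ℝ) * S.N P₁ / (X / S.nm r))) : ℂ))
        else 0) else 0 := by
  have hqr : q ∉ r := (mem_sdiff.1 hq).2
  have hP' := mem_sdiff.1 hP
  have hPr : P₁ ∈ P \ r := mem_sdiff.2 ⟨hP'.1, fun h => hP'.2 (mem_insert_of_mem h)⟩
  unfold gg
  rw [if_congr (cond_iff S V E i j r q P₁ hqr hP'.2) rfl rfl]
  simp only [mem_filter, mem_blk]
  by_cases h1 : S.bl q = j ∧ S.spl q
  · rw [if_pos h1]
    by_cases h2 : S.bl P₁ = i ∧ ¬ S.spl P₁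
    · rw [if_pos h2]
      rw [sum_eq_single (S.cls q)]
      · by_cases hv : cP S V r P₁
        · unfold al be vv
          rw [if_pos hv, if_pos (⟨hq, rfl⟩ : q ∈ P \ r ∧ S.cls q = S.cls q)]
          by_cases h3 : sm S E j r P₁ ∧ S.cls P₁ + (S.cls q + ∑ q' ∈ r, S.cls q') = S.cl₀
          · have h4 : S.cls P₁ = S.cl₀ - S.cls q - ∑ q' ∈ r, S.cls q' := by
              rw [← h3.2]
              abel
            rw [if_pos ⟨hcR, ⟨h1.2, h1.1⟩, ⟨h2.2, h2.1⟩, hv, h3.1, h3.2⟩,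
              if_pos ⟨hPr, h4, h3.1⟩]
            rw [TT_insert S ψ ψ₁ E (insert q r) q P₁ s x t c y hP'.2 h1.2 h2.2,
              rs_insert S _ q P₁ h2.2, rs_eq S j r q hqr h1.1]
            have h5 : S.nm (insert P₁ (insert q r)) = S.N P₁ * (S.N q * S.nm r) := by
              unfold Sys.nm
              rw [prod_insert hP'.2, prod_insert hqr]
            have h6 : ((S.nm (insert P₁ (insert q r)) : ℕ) : ℝ) / X =
                (S.N q : ℝ) * S.N P₁ / (X / S.nm r) := by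
              have h7 : (S.nm r : ℝ) ≠ 0 := by exact_mod_cast (nm_pos S r).ne'
              rw [h5]
              push_cast
              field_simp
            rw [h6]
            ring
          · rw [if_neg (fun h => h3 ⟨h.2.2.2.2.1, h.2.2.2.2.2⟩), if_neg]
            · ring
            · rintro ⟨-, h4, h5⟩
              refine h3 ⟨h5, ?_⟩
              rw [h4]
              abel
        · rw [if_neg (fun h => hv h.2.2.2.1)]
          unfold vv
          rw [if_neg hv]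
          ring
      · intro γ _ hγ
        unfold be
        rw [if_neg (fun h => hγ h.2.symm)]
        ring
      · intro h
        exact absurd (mem_univ _) h
    · rw [if_neg h2, if_neg]
      rintro ⟨-, -, h3, -⟩
      exact h2 ⟨h3.2, h3.1⟩
  · rw [if_neg h1, if_neg]
    rintro ⟨-, h3, -⟩
    exact h1 ⟨h3.2, h3.1⟩

open Classical in
lemma inner_eq [Algebra (ZMod p) k] [Fact p.Prime] [Fintype k] [Fintype C] (V : B → Prop)
    (ψ : AddChar k ℂ) (ψ₁ : AddChar (ZMod p) ℂ) (E i j : ℕ) (s : ZMod p) (X : ℝ) (hX : 0 < X)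
    (x : U) (t : k) (c y : B → k) (P r : Finset B) (hcR : cR S V i j r) (u v : B → ℂ) :
    ∑ q ∈ P \ r, ∑ P₁ ∈ P \ insert q r,
      gg S V ψ ψ₁ E i j s X x t c y (insert P₁ (insert q r)) q P₁ * (u q * v P₁) =
    ∑ γ : C, (Fintype.card k : ℂ) ^ (rsj S j r).card *
      ∑ P₁ ∈ S.blk i with ¬ S.spl P₁, ∑ q ∈ S.blk j with S.spl q,
        (al S ψ E j c y P r γ P₁ * vv S V r P₁ * v P₁) * (be S ψ ψ₁ E s x t c y P r γ q * u q) *
          ψ₁ (s * S.kap q P₁) * (Real.exp (-((S.N q : ℝ) * S.N P₁ / (X / S.nm r))) : ℂ) := by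
  set h : B → B → ℂ := fun q P₁ => ∑ γ : C, (Fintype.card k : ℂ) ^ (rsj S j r).card *
            ((al S ψ E j c y P r γ P₁ * vv S V r P₁ * v P₁) * (be S ψ ψ₁ E s x t c y P r γ q * u q) *
              ψ₁ (s * S.kap q P₁) *
              (Real.exp (-((S.N q : ℝ) * S.N P₁ / (X / S.nm r))) : ℂ)) with hh
  have hq0 : ∀ q P₁, q ∉ P \ r → h q P₁ = 0 := by
    intro q P₁ hq
    rw [hh]
    refine sum_eq_zero fun γ _ => ?_
    unfold be
    rw [if_neg (fun h => hq h.1)]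
    ring
  have hP0 : ∀ q P₁, P₁ ∉ P \ r → h q P₁ = 0 := by
    intro q P₁ hq
    rw [hh]
    refine sum_eq_zero fun γ _ => ?_
    unfold al
    rw [if_neg (fun h => hq h.1)]
    ring
  have hgg : ∀ q ∈ P \ r, ∀ P₁ ∈ P \ insert q r,
      gg S V ψ ψ₁ E i j s X x t c y (insert P₁ (insert q r)) q P₁ * (u q * v P₁) =
        (if q ∈ (S.blk j).filter (fun q => S.spl q) then
          (if P₁ ∈ (S.blk i).filter (fun P => ¬ S.spl P) then h q P₁ else 0) else 0) := by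
    intro q hq P₁ hP
    rw [gg_eq S V ψ ψ₁ E i j s X hX x t c y P r hcR q P₁ hq hP, hh]
    split_ifs
    · rw [sum_mul]
      exact sum_congr rfl fun γ _ => by ring
    · rw [zero_mul]
    · rw [zero_mul]
  have e1 : ∑ q ∈ P \ r, ∑ P₁ ∈ P \ insert q r,
      gg S V ψ ψ₁ E i j s X x t c y (insert P₁ (insert q r)) q P₁ * (u q * v P₁) =
      ∑ q ∈ P \ r, if q ∈ (S.blk j).filter (fun q => S.spl q) then
        ∑ P₁ ∈ P \ r, (if P₁ ∈ (S.blk i).filter (fun P => ¬ S.spl P) then h q P₁ else 0)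
        else 0 := by
    refine sum_congr rfl fun q hq => ?_
    rw [sum_congr rfl (hgg q hq)]
    split_ifs with h1
    · refine sum_subset (sdiff_subset_sdiff subset_rfl (subset_insert _ _)) ?_
      intro P₁ h2 h3
      have h4 : P₁ = q := by
        by_contra h4
        refine h3 (mem_sdiff.2 ⟨(mem_sdiff.1 h2).1, fun h5 => ?_⟩)
        rcases mem_insert.1 h5 with h6 | h6
        · exact h4 h6
        · exact (mem_sdiff.1 h2).2 h6
      rw [if_neg]
      rw [h4]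
      intro h5
      exact (mem_filter.1 h5).2 (mem_filter.1 h1).2
    · simp
  rw [e1, sum_swap]
  have e3 : ∀ q ∈ (S.blk j).filter (fun q => S.spl q),
      (if q ∈ P \ r then ∑ P₁ ∈ P \ r,
        (if P₁ ∈ (S.blk i).filter (fun P => ¬ S.spl P) then h q P₁ else 0) else 0) =
      ∑ P₁ ∈ (S.blk i).filter (fun P => ¬ S.spl P), h q P₁ := by
    intro q _
    split_ifs with h1
    · rw [sum_swap]
      refine sum_congr rfl fun P₁ _ => ?_
      split_ifs with h2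
      · rfl
      · exact (hP0 q P₁ h2).symm
    · exact (sum_eq_zero fun P₁ _ => hq0 q P₁ h1).symm
  rw [sum_congr rfl e3, sum_comm]
  rw [hh]
  simp only [mul_sum]
  rw [sum_comm]
  calc _ = ∑ q ∈ (S.blk j).filter (fun q => S.spl q), ∑ γ : C,
      ∑ P₁ ∈ (S.blk i).filter (fun P => ¬ S.spl P), (Fintype.card k : ℂ) ^ (rsj S j r).card *
            ((al S ψ E j c y P r γ P₁ * vv S V r P₁ * v P₁) * (be S ψ ψ₁ E s x t c y P r γ q * u q) *
              ψ₁ (s * S.kap q P₁) *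
              (Real.exp (-((S.N q : ℝ) * S.N P₁ / (X / S.nm r))) : ℂ)) :=
        sum_congr rfl fun q _ => sum_comm
    _ = _ := by
      rw [sum_comm]
      exact sum_congr rfl fun γ _ => sum_comm

open Classical in
lemma inner_le [Algebra (ZMod p) k] [Fact p.Prime] [Fintype k] [Fintype C] (V : B → Prop)
    (ψ : AddChar k ℂ) (ψ₁ : AddChar (ZMod p) ℂ) (g : ℝ → ℝ) (K : ℕ) (hH : S.Hyp ψ ψ₁ g K)
    (E i j : ℕ) (hi : 1 ≤ i) (hj : 1 ≤ j) (s : ZMod p) (hs : s ≠ 0) (X : ℝ) (hX : 0 < X)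
    (x : U) (t : k) (ht : t ≠ 0) (c y : B → k) (P r : Finset B) (u v : B → ℂ)
    (hu : ∀ q, ‖u q‖ ≤ 1) (hv : ∀ q, ‖v q‖ ≤ 1) :
    ‖∑ q ∈ P \ r, ∑ P₁ ∈ P \ insert q r,
      gg S V ψ ψ₁ E i j s X x t c y (insert P₁ (insert q r)) q P₁ * (u q * v P₁)‖ ≤
    Fintype.card C * ((Fintype.card k : ℝ) ^ r.card *
      (K * 2 ^ (i + j) * (i + j) ^ K * (2 : ℝ) ^ (-(min i j : ℝ) / K) *
        Real.exp (-(S.nm r / (2 * X / 2 ^ (i + j)))))) := by
  have hnm : (0 : ℝ) < S.nm r := by exact_mod_cast nm_pos S r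
  by_cases hcR : cR S V i j r
  · rw [inner_eq S V ψ ψ₁ E i j s X hX x t c y P r hcR]
    refine (norm_sum_le _ _).trans ?_
    have h1 : ∀ γ ∈ (univ : Finset C), ‖(Fintype.card k : ℂ) ^ (rsj S j r).card *
      ∑ P₁ ∈ S.blk i with ¬ S.spl P₁, ∑ q ∈ S.blk j with S.spl q,
        (al S ψ E j c y P r γ P₁ * vv S V r P₁ * v P₁) * (be S ψ ψ₁ E s x t c y P r γ q * u q) *
          ψ₁ (s * S.kap q P₁) * (Real.exp (-((S.N q : ℝ) * S.N P₁ / (X / S.nm r))) : ℂ)‖ ≤
        (Fintype.card k : ℝ) ^ r.card *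
      (K * 2 ^ (i + j) * (i + j) ^ K * (2 : ℝ) ^ (-(min i j : ℝ) / K) *
        Real.exp (-(S.nm r / (2 * X / 2 ^ (i + j))))) := by
      intro γ _
      rw [norm_mul, norm_pow, Complex.norm_natCast]
      have a1 : ∀ P₁, ‖al S ψ E j c y P r γ P₁ * vv S V r P₁ * v P₁‖ ≤ 1 := by
        intro P₁
        rw [norm_mul, norm_mul]
        exact mul_le_one₀ (mul_le_one₀ (al_norm S ψ E j c y P r γ P₁) (norm_nonneg _)
          (vv_norm S V r P₁)) (norm_nonneg _) (hv P₁)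
      have a2 : ∀ q, ‖be S ψ ψ₁ E s x t c y P r γ q * u q‖ ≤ 1 := by
        intro q
        rw [norm_mul]
        exact mul_le_one₀ (be_norm S ψ ψ₁ E s x t ht c y P r γ q) (norm_nonneg _) (hu q)
      have h2 := hH.bl₂ i j s (fun P₁ => al S ψ E j c y P r γ P₁ * vv S V r P₁ * v P₁)
        (fun q => be S ψ ψ₁ E s x t c y P r γ q * u q)
        (X / S.nm r) hi hj hs (by positivity) a1 a2
      have h3 : (2 : ℝ) ^ (i + j) / (2 * (X / S.nm r)) = S.nm r / (2 * X / 2 ^ (i + j)) := by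
        field_simp
      rw [h3] at h2
      have h4 : (1 : ℝ) ≤ Fintype.card k := by exact_mod_cast Fintype.card_pos
      have h5 : (rsj S j r).card ≤ r.card := card_filter_le _ _
      exact mul_le_mul (pow_le_pow_right₀ h4 h5) h2 (norm_nonneg _) (by positivity)
    refine (sum_le_sum h1).trans ?_
    rw [sum_const, nsmul_eq_mul, card_univ]
  · have h1 : ∑ q ∈ P \ r, ∑ P₁ ∈ P \ insert q r,
        gg S V ψ ψ₁ E i j s X x t c y (insert P₁ (insert q r)) q P₁ * (u q * v P₁) = 0 := by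
      refine sum_eq_zero fun q hq => sum_eq_zero fun P₁ hP => ?_
      have h0 : gg S V ψ ψ₁ E i j s X x t c y (insert P₁ (insert q r)) q P₁ = 0 := by
        unfold gg
        rw [if_neg]
        rw [cond_iff S V E i j r q P₁ (mem_sdiff.1 hq).2 (mem_sdiff.1 hP).2]
        exact fun h => hcR h.1
      rw [h0, zero_mul]
    rw [h1, norm_zero]
    positivity

open Classical in
/-- the weighted summand -/
noncomputable def gw [Algebra (ZMod p) k] [Fact p.Prime] [Fintype k] (V : B → Prop)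
    (Fz : Finset B → ℂ)
    (ψ : AddChar k ℂ) (ψ₁ : AddChar (ZMod p) ℂ) (E i j : ℕ) (s : ZMod p) (X : ℝ)
    (x : U) (t : k) (c y : B → k) (b : Finset B) (q P₁ : B) : ℂ :=
  if ¬ V q then gg S V ψ ψ₁ E i j s X x t c y b q P₁ * Fz b else 0

open Classical in
lemma fixed_le (hdec : C_DEC) [Algebra (ZMod p) k] [Fact p.Prime] [Fintype k] [Fintype C]
    (V : B → Prop) (Fz : Finset B → ℂ) (Dz : Finset B → B → ℂ)
    (hFD : ∀ (r : Finset B) (q₁ q₂ : B), q₁ ∉ r → q₂ ∉ insert q₁ r → ¬ V q₁ → ¬ V q₂ →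
      Fz (insert q₂ (insert q₁ r)) = Fz r * Dz r q₁ * Dz r q₂)
    (hD : ∀ r q, ‖Dz r q‖ ≤ 1) (hF : ∀ r, ‖Fz r‖ ≤ (p : ℝ) ^ r.card)
    (ψ : AddChar k ℂ) (ψ₁ : AddChar (ZMod p) ℂ) (g : ℝ → ℝ) (K : ℕ) (hH : S.Hyp ψ ψ₁ g K)
    (E i j : ℕ) (hi : 1 ≤ i) (hj : 1 ≤ j) (s : ZMod p) (hs : s ≠ 0) (X : ℝ) (hX : 0 < X)
    (x : U) (t : k) (ht : t ≠ 0) (c y : B → k) (P : Finset B) :
    ‖∑ b ∈ P.powerset with S.Fam b, ∑ q ∈ b with (S.Wt E b q ∧ S.bl q = j ∧ ¬ V q),
      ∑ P₁ ∈ b with (TopV S V b P₁ ∧ S.bl P₁ = i),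
      (Fintype.card k : ℂ) ^ (S.rs b q).card * TT S ψ ψ₁ E b q s x t c y *
      (Fz b * (Real.exp (-(S.nm b / X)) : ℂ))‖ ≤
    ∑ r ∈ P.powerset, Fintype.card C * (((Fintype.card k : ℝ) * p) ^ r.card *
      (K * 2 ^ (i + j) * (i + j) ^ K * (2 : ℝ) ^ (-(min i j : ℝ) / K) *
        Real.exp (-(S.nm r / (2 * X / 2 ^ (i + j)))))) := by
  have e1 : ∑ b ∈ P.powerset with S.Fam b, ∑ q ∈ b with (S.Wt E b q ∧ S.bl q = j ∧ ¬ V q),
      ∑ P₁ ∈ b with (TopV S V b P₁ ∧ S.bl P₁ = i),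
      (Fintype.card k : ℂ) ^ (S.rs b q).card * TT S ψ ψ₁ E b q s x t c y *
      (Fz b * (Real.exp (-(S.nm b / X)) : ℂ)) =
      ∑ b ∈ P.powerset, ∑ q ∈ b, ∑ P₁ ∈ b, gw S V Fz ψ ψ₁ E i j s X x t c y b q P₁ := by
    rw [sum_filter]
    refine sum_congr rfl fun b _ => ?_
    by_cases h1 : S.Fam b
    · rw [if_pos h1, sum_filter]
      refine sum_congr rfl fun q _ => ?_
      by_cases h2 : S.Wt E b q ∧ S.bl q = j ∧ ¬ V q
      · rw [if_pos h2, sum_filter]
        refine sum_congr rfl fun P₁ _ => ?_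
        unfold gw gg
        rw [if_pos h2.2.2]
        by_cases h3 : TopV S V b P₁ ∧ S.bl P₁ = i
        · rw [if_pos h3, if_pos ⟨h1, ⟨h2.1, h2.2.1⟩, h3⟩]
          ring
        · rw [if_neg h3, if_neg (fun h => h3 h.2.2), zero_mul]
      · rw [if_neg h2]
        refine (sum_eq_zero fun P₁ _ => ?_).symm
        unfold gw gg
        by_cases h4 : V q
        · rw [if_neg (fun h => h h4)]
        · rw [if_pos h4, if_neg (fun h => h2 ⟨h.2.1.1, h.2.1.2, h4⟩), zero_mul]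
    · rw [if_neg h1]
      refine (sum_eq_zero fun q _ => sum_eq_zero fun P₁ _ => ?_).symm
      have h0 : gg S V ψ ψ₁ E i j s X x t c y b q P₁ = 0 := by
        unfold gg
        rw [if_neg (fun h => h1 h.1)]
      unfold gw
      rw [h0, zero_mul, ite_self]
  rw [e1, decomp hdec P (gw S V Fz ψ ψ₁ E i j s X x t c y) (fun b q => by
    have h0 : gg S V ψ ψ₁ E i j s X x t c y b q q = 0 := by
      unfold gg
      rw [if_neg (fun h => h.2.2.1.spl h.2.1.1.spl)]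
    unfold gw
    rw [h0, zero_mul, ite_self])]
  refine (norm_sum_le _ _).trans (sum_le_sum fun r _ => ?_)
  set u : B → ℂ := fun q => if V q then 0 else Dz r q with hu
  have hu1 : ∀ q, ‖u q‖ ≤ 1 := by
    intro q
    rw [hu]
    dsimp only
    split_ifs
    · simp
    · exact hD r q
  have e2 : ∑ q ∈ P \ r, ∑ P₁ ∈ P \ insert q r,
      gw S V Fz ψ ψ₁ E i j s X x t c y (insert P₁ (insert q r)) q P₁ =
      Fz r * ∑ q ∈ P \ r, ∑ P₁ ∈ P \ insert q r,
        gg S V ψ ψ₁ E i j s X x t c y (insert P₁ (insert q r)) q P₁ * (u q * Dz r P₁) := by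
    rw [mul_sum]
    refine sum_congr rfl fun q hq => ?_
    rw [mul_sum]
    refine sum_congr rfl fun P₁ hP => ?_
    unfold gw
    by_cases h4 : V q
    · rw [if_neg (fun h => h h4), hu]
      dsimp only
      rw [if_pos h4]
      ring
    · rw [if_pos h4, hu]
      dsimp only
      rw [if_neg h4]
      by_cases h5 : V P₁
      · have h0 : gg S V ψ ψ₁ E i j s X x t c y (insert P₁ (insert q r)) q P₁ = 0 := by
          unfold gg
          rw [if_neg (fun h => h.2.2.1.nV h5)]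
        rw [h0]
        ring
      · rw [hFD r q P₁ (mem_sdiff.1 hq).2 (mem_sdiff.1 hP).2 h4 h5]
        ring
  rw [e2, norm_mul]
  calc ‖Fz r‖ * ‖∑ q ∈ P \ r, ∑ P₁ ∈ P \ insert q r,
        gg S V ψ ψ₁ E i j s X x t c y (insert P₁ (insert q r)) q P₁ * (u q * Dz r P₁)‖
      ≤ (p : ℝ) ^ r.card * (Fintype.card C * ((Fintype.card k : ℝ) ^ r.card *
      (K * 2 ^ (i + j) * (i + j) ^ K * (2 : ℝ) ^ (-(min i j : ℝ) / K) *
        Real.exp (-(S.nm r / (2 * X / 2 ^ (i + j))))))) := by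
        refine mul_le_mul (hF r) ?_ (norm_nonneg _) (by positivity)
        exact inner_le S V ψ ψ₁ g K hH E i j hi hj s hs X hX x t ht c y P r u (Dz r) hu1 (hD r)
    _ = _ := by
        rw [mul_pow]
        ring

open Classical in
lemma total_le (hdec : C_DEC) [Algebra (ZMod p) k] [Fact p.Prime] [Fintype k] [Fintype C]
    [Fintype U]
    (V : B → Prop) (Fz : Finset B → ℂ) (Dz : Finset B → B → ℂ)
    (hFD : ∀ (r : Finset B) (q₁ q₂ : B), q₁ ∉ r → q₂ ∉ insert q₁ r → ¬ V q₁ → ¬ V q₂ →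
      Fz (insert q₂ (insert q₁ r)) = Fz r * Dz r q₁ * Dz r q₂)
    (hD : ∀ r q, ‖Dz r q‖ ≤ 1) (hF : ∀ r, ‖Fz r‖ ≤ (p : ℝ) ^ r.card)
    (ψ : AddChar k ℂ) (ψ₁ : AddChar (ZMod p) ℂ) (g : ℝ → ℝ) (K : ℕ) (hH : S.Hyp ψ ψ₁ g K)
    (E i j : ℕ) (hi : 1 ≤ i) (hj : 1 ≤ j) (s : ZMod p) (hs : s ≠ 0) (X : ℝ) (hX : 0 < X)
    (P : Finset B) :
    ‖∑ b ∈ P.powerset with S.Fam b, ∑ q ∈ b with (S.Wt E b q ∧ S.bl q = j ∧ ¬ V q),
      ∑ P₁ ∈ b with (TopV S V b P₁ ∧ S.bl P₁ = i),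
        S.osc ψ ψ₁ E P b q s * (Fz b * (Real.exp (-(S.nm b / X)) : ℂ))‖ ≤
    Fintype.card U * Fintype.card k *
    ∑ r ∈ P.powerset, Fintype.card C * (((Fintype.card k : ℝ) * p) ^ r.card *
      (K * 2 ^ (i + j) * (i + j) ^ K * (2 : ℝ) ^ (-(min i j : ℝ) / K) *
        Real.exp (-(S.nm r / (2 * X / 2 ^ (i + j)))))) := by
  set M := ∑ r ∈ P.powerset, Fintype.card C * (((Fintype.card k : ℝ) * p) ^ r.card *
      (K * 2 ^ (i + j) * (i + j) ^ K * (2 : ℝ) ^ (-(min i j : ℝ) / K) *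
        Real.exp (-(S.nm r / (2 * X / 2 ^ (i + j)))))) with hM
  have hM0 : 0 ≤ M := by
    rw [hM]
    positivity
  set Z : Finset (U × k × (B → k) × (B → k)) :=
    univ ×ˢ ((univ : Finset k).erase 0) ×ˢ (lab k P) ×ˢ (lab k P) with hZ
  have hlab : 0 < (lab k P).card := card_pos.2 ⟨0, mem_lab.2 fun _ _ => rfl⟩
  have e0 : ∀ b q, S.osc ψ ψ₁ E P b q s * (Fz b * (Real.exp (-(S.nm b / X)) : ℂ)) =
      ∑ z ∈ Z, (1 / ((lab k P).card : ℂ) ^ 2) * ((Fintype.card k : ℂ) ^ (S.rs b q).card *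
        TT S ψ ψ₁ E b q s z.1 z.2.1 z.2.2.1 z.2.2.2 *
          (Fz b * (Real.exp (-(S.nm b / X)) : ℂ))) := by
    intro b q
    rw [osc_eq, hZ, sum_product]
    simp only [sum_product]
    simp only [mul_sum, sum_mul]
    refine sum_congr rfl fun x _ => sum_congr rfl fun t _ => sum_congr rfl fun c _ =>
      sum_congr rfl fun y _ => ?_
    ring
  have e1 : ∑ b ∈ P.powerset with S.Fam b, ∑ q ∈ b with (S.Wt E b q ∧ S.bl q = j ∧ ¬ V q),
      ∑ P₁ ∈ b with (TopV S V b P₁ ∧ S.bl P₁ = i),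
        S.osc ψ ψ₁ E P b q s * (Fz b * (Real.exp (-(S.nm b / X)) : ℂ)) =
      ∑ z ∈ Z, (1 / ((lab k P).card : ℂ) ^ 2) *
      ∑ b ∈ P.powerset with S.Fam b, ∑ q ∈ b with (S.Wt E b q ∧ S.bl q = j ∧ ¬ V q),
      ∑ P₁ ∈ b with (TopV S V b P₁ ∧ S.bl P₁ = i),
      (Fintype.card k : ℂ) ^ (S.rs b q).card * TT S ψ ψ₁ E b q s z.1 z.2.1 z.2.2.1 z.2.2.2 *
      (Fz b * (Real.exp (-(S.nm b / X)) : ℂ)) := by
    simp only [e0, mul_sum]
    calc _ = ∑ b ∈ P.powerset with S.Fam b, ∑ z ∈ Z,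
      ∑ q ∈ b with (S.Wt E b q ∧ S.bl q = j ∧ ¬ V q),
      ∑ P₁ ∈ b with (TopV S V b P₁ ∧ S.bl P₁ = i),
      (1 / ((lab k P).card : ℂ) ^ 2) * ((Fintype.card k : ℂ) ^ (S.rs b q).card *
        TT S ψ ψ₁ E b q s z.1 z.2.1 z.2.2.1 z.2.2.2 *
          (Fz b * (Real.exp (-(S.nm b / X)) : ℂ))) := by
          refine sum_congr rfl fun b _ => ?_
          exact Eq.trans (sum_congr rfl fun q _ => sum_comm) sum_comm
      _ = _ := sum_comm
  rw [e1]
  refine (norm_sum_le _ _).trans ?_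
  have h1 : ∀ z ∈ Z, ‖(1 / ((lab k P).card : ℂ) ^ 2) *
      ∑ b ∈ P.powerset with S.Fam b, ∑ q ∈ b with (S.Wt E b q ∧ S.bl q = j ∧ ¬ V q),
      ∑ P₁ ∈ b with (TopV S V b P₁ ∧ S.bl P₁ = i),
      (Fintype.card k : ℂ) ^ (S.rs b q).card * TT S ψ ψ₁ E b q s z.1 z.2.1 z.2.2.1 z.2.2.2 *
      (Fz b * (Real.exp (-(S.nm b / X)) : ℂ))‖ ≤ 1 / ((lab k P).card : ℝ) ^ 2 * M := by
    intro z hz
    rw [norm_mul, norm_div, norm_one, norm_pow, Complex.norm_natCast]
    have h2 : z.2.1 ≠ 0 := by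
      rw [hZ, mem_product, mem_product] at hz
      exact (mem_erase.1 hz.2.1).1
    exact mul_le_mul_of_nonneg_left (fixed_le S hdec V Fz Dz hFD hD hF ψ ψ₁ g K hH E i j hi hj
      s hs X hX z.1 z.2.1 h2 z.2.2.1 z.2.2.2 P) (by positivity)
  refine (sum_le_sum h1).trans ?_
  rw [sum_const, nsmul_eq_mul]
  have h3 : Z.card = Fintype.card U * ((Fintype.card k - 1) * ((lab k P).card *
      (lab k P).card)) := by
    rw [hZ, card_product, card_product, card_product, card_univ, card_erase_of_mem (mem_univ _),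
      card_univ]
  have h4 : (Z.card : ℝ) ≤ Fintype.card U * Fintype.card k * ((lab k P).card : ℝ) ^ 2 := by
    rw [h3]
    have h5 : Fintype.card U * ((Fintype.card k - 1) * ((lab k P).card * (lab k P).card)) ≤
        Fintype.card U * Fintype.card k * (lab k P).card ^ 2 := by
      have h6 : Fintype.card k - 1 ≤ Fintype.card k := Nat.sub_le _ _
      calc _ ≤ Fintype.card U * (Fintype.card k * ((lab k P).card * (lab k P).card)) := by
            gcongr
        _ = _ := by ring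
    exact_mod_cast h5
  have h7 : (0 : ℝ) < (lab k P).card := by exact_mod_cast hlab
  calc (Z.card : ℝ) * (1 / ((lab k P).card : ℝ) ^ 2 * M) ≤
      (Fintype.card U * Fintype.card k * ((lab k P).card : ℝ) ^ 2) *
        (1 / ((lab k P).card : ℝ) ^ 2 * M) := by gcongr
    _ = _ := by field_simp

open Classical in
theorem t_osbv_of (hfou : T_FOU) : T_OSBV := by
  intro p _ B B₀ k U Λ C _ _ _ _ _ _ _ _ _ _ _ S ψ Lk Cs M κ g K₀ hG ψ₁ K hH
  have hdec : C_DEC := Pool.Agent.Helper22.PP.c_dec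
  have : Fintype C := Fintype.ofFinite C
  set n0 := Fintype.card k * p * K with hn0
  set C1 : ℕ := 4 * Fintype.card U * Fintype.card k * Fintype.card C * K ^ 2 * K₀ * 3 ^ n0
    with hC1
  refine ⟨C1 + n0, fun V G hWG E i j s X P hi hj _ hs hX => ?_⟩
  have hX0 : 0 < X := by linarith
  have hp1 : 1 ≤ p := (Fact.out : p.Prime).one_le
  have hp1' : (1 : ℝ) ≤ p := by exact_mod_cast hp1
  -- the Fourier expansion
  obtain ⟨h, hh1, hh2, hh3⟩ := hfou p B B₀ k U Λ C S ψ₁ hH.ψ₁_ne V G hWG P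
  have hmain : ‖∑ b ∈ P.powerset with S.Fam b, ∑ q ∈ b with (S.Wt E b q ∧ S.bl q = j ∧ ¬ V q),
      ∑ P₁ ∈ b with (TopV S V b P₁ ∧ S.bl P₁ = i),
        (G b : ℂ) * S.osc ψ ψ₁ E P b q s * (Real.exp (-(S.nm b / X)) : ℂ)‖ ≤
      Fintype.card U * Fintype.card k *
    ∑ r ∈ P.powerset, Fintype.card C * (((Fintype.card k : ℝ) * p) ^ r.card *
      (K * 2 ^ (i + j) * (i + j) ^ K * (2 : ℝ) ^ (-(min i j : ℝ) / K) *
        Real.exp (-(S.nm r / (2 * X / 2 ^ (i + j)))))) := by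
    set MM := Fintype.card U * Fintype.card k *
    ∑ r ∈ P.powerset, Fintype.card C * (((Fintype.card k : ℝ) * p) ^ r.card *
      (K * 2 ^ (i + j) * (i + j) ^ K * (2 : ℝ) ^ (-(min i j : ℝ) / K) *
        Real.exp (-(S.nm r / (2 * X / 2 ^ (i + j)))))) with hMM
    have e1 : ∑ b ∈ P.powerset with S.Fam b, ∑ q ∈ b with (S.Wt E b q ∧ S.bl q = j ∧ ¬ V q),
      ∑ P₁ ∈ b with (TopV S V b P₁ ∧ S.bl P₁ = i),
        (G b : ℂ) * S.osc ψ ψ₁ E P b q s * (Real.exp (-(S.nm b / X)) : ℂ) =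
      ∑ z ∈ lab (ZMod p) P, (1 / (p : ℂ)) ^ P.card *
      ∑ b ∈ P.powerset with S.Fam b, ∑ q ∈ b with (S.Wt E b q ∧ S.bl q = j ∧ ¬ V q),
      ∑ P₁ ∈ b with (TopV S V b P₁ ∧ S.bl P₁ = i),
        S.osc ψ ψ₁ E P b q s * (FF S V ψ₁ h z b * (Real.exp (-(S.nm b / X)) : ℂ)) := by
      simp only [mul_sum]
      rw [sum_comm (s := lab (ZMod p) P)]
      refine sum_congr rfl fun b hb => ?_
      rw [sum_comm (s := lab (ZMod p) P)]
      refine sum_congr rfl fun q _ => ?_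
      rw [sum_comm (s := lab (ZMod p) P)]
      refine sum_congr rfl fun q₁ _ => ?_
      rw [hh3 b (mem_powerset.1 (mem_filter.1 hb).1)]
      rw [mul_sum, sum_mul, sum_mul]
      refine sum_congr rfl fun z _ => ?_
      unfold FF
      ring
    rw [e1]
    refine (norm_sum_le _ _).trans ?_
    have e2 : ∀ z ∈ lab (ZMod p) P, ‖(1 / (p : ℂ)) ^ P.card *
      ∑ b ∈ P.powerset with S.Fam b, ∑ q ∈ b with (S.Wt E b q ∧ S.bl q = j ∧ ¬ V q),
      ∑ P₁ ∈ b with (TopV S V b P₁ ∧ S.bl P₁ = i),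
        S.osc ψ ψ₁ E P b q s * (FF S V ψ₁ h z b * (Real.exp (-(S.nm b / X)) : ℂ))‖ ≤
        (1 / (p : ℝ)) ^ P.card * MM := by
      intro z _
      rw [norm_mul, norm_pow, norm_div, norm_one, Complex.norm_natCast]
      exact mul_le_mul_of_nonneg_left (total_le S hdec V (FF S V ψ₁ h z) (DD S V ψ₁ z)
        (fun r q₁ q₂ => FF_two S V ψ₁ h z r q₁ q₂) (DD_norm S V ψ₁ z) (FF_norm S V ψ₁ h hh1 z)
        ψ ψ₁ g K hH E i j hi hj s hs X hX0 P) (by positivity)
    refine (sum_le_sum e2).trans ?_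
    rw [sum_const, nsmul_eq_mul, (Pool.Agent.Helper83.PP.c_lab B (ZMod p) P).1, ZMod.card]
    rw [← mul_assoc]
    have e3 : ((p ^ P.card : ℕ) : ℝ) * (1 / (p : ℝ)) ^ P.card = 1 := by
      push_cast
      rw [← mul_pow, mul_one_div, div_self (by positivity), one_pow]
    rw [e3, one_mul]
  refine hmain.trans ?_
  set Y : ℝ := 2 * X / 2 ^ (i + j) with hY
  have hY0 : 0 < Y := by positivity
  have h2ij : (2 : ℝ) ≤ 2 ^ (i + j) := by
    calc (2 : ℝ) = 2 ^ 1 := by norm_num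
      _ ≤ 2 ^ (i + j) := pow_le_pow_right₀ (by norm_num) (by omega)
  have hYX : Y ≤ X := by
    rw [hY, div_le_iff₀ (by positivity)]
    nlinarith
  set w : ℝ := (2 : ℝ) ^ (-(min i j : ℝ) / K) with hw
  have hw0 : 0 ≤ w := by positivity
  have hQ1 : 1 ≤ Fintype.card k := Fintype.card_pos
  have hQ1' : (1 : ℝ) ≤ Fintype.card k := by exact_mod_cast hQ1
  have hpQ : (p : ℝ) ≤ Fintype.card k := by
    have h1 : Fintype.card (ZMod p) ≤ Fintype.card k :=
      Fintype.card_le_of_injective _ (algebraMap (ZMod p) k).injective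
    rw [ZMod.card] at h1
    exact_mod_cast h1
  have hK1 : (1 : ℝ) ≤ K := by exact_mod_cast hH.one_le
  have hgX : 1 ≤ g X := hH.g_one X
  have hgY : g Y ≤ K * g X := hH.g_mono Y X hYX
  have h1 := hG.htG (fun _ => Fintype.card k * p) (fun q => ⟨by positivity, by nlinarith⟩)
    Y hY0 P
  simp only [prod_const] at h1
  have h2 : ∑ q ∈ S.upto Y, ((Fintype.card k : ℝ) * p - 1) / S.N q ≤
      n0 * (1 + Real.log (lg X + 1)) := by
    have h3 := upto_sum S ψ ψ₁ g K hH X Y hYX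
    have h4 : ∑ q ∈ S.upto Y, ((Fintype.card k : ℝ) * p - 1) / S.N q ≤
        ((Fintype.card k : ℝ) * p) * ∑ q ∈ S.upto Y, (1 : ℝ) / S.N q := by
      rw [mul_sum]
      refine sum_le_sum fun q _ => ?_
      rw [mul_one_div]
      exact div_le_div_of_nonneg_right (by linarith) (by positivity)
    refine h4.trans ?_
    rw [hn0]
    push_cast
    rw [mul_assoc ((Fintype.card k : ℝ) * p)]
    exact mul_le_mul_of_nonneg_left h3 (by positivity)
  have hL0 : (0 : ℝ) < (lg X : ℝ) + 1 := by positivity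
  have h3 : Real.exp (∑ q ∈ S.upto Y, ((Fintype.card k : ℝ) * p - 1) / S.N q) ≤
      3 ^ n0 * ((lg X : ℝ) + 2) ^ n0 := by
    calc _ ≤ Real.exp (n0 * (1 + Real.log (lg X + 1))) := Real.exp_le_exp.2 h2
      _ = (Real.exp 1 * (lg X + 1)) ^ n0 := by
        rw [Real.exp_nat_mul, Real.exp_add, Real.exp_log hL0]
      _ ≤ (3 * ((lg X : ℝ) + 2)) ^ n0 := by
        have h4 : Real.exp 1 ≤ 3 := by
          have := Real.exp_one_lt_d9
          linarith
        refine pow_le_pow_left₀ (by positivity) ?_ _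
        refine mul_le_mul h4 (by linarith) hL0.le (by norm_num)
      _ = _ := by rw [mul_pow]
  have hmin : min 1 Y ≤ 2 * min 1 (X / 2 ^ (i + j)) := by
    have h5 : Y = 2 * (X / 2 ^ (i + j)) := by
      rw [hY]
      ring
    rw [h5]
    have h6 : 0 < X / 2 ^ (i + j) := by positivity
    rcases le_total 1 (X / 2 ^ (i + j)) with h7 | h7
    · rw [min_eq_left h7]
      exact (min_le_left _ _).trans (by norm_num)
    · rw [min_eq_right h7]
      exact min_le_right _ _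
  set mm : ℝ := min 1 (X / 2 ^ (i + j)) with hmm
  have hmm0 : 0 ≤ mm := by
    rw [hmm]
    exact le_min (by norm_num) (by positivity)
  -- the sum over `r`
  have h8 : ∑ r ∈ P.powerset, Fintype.card C * (((Fintype.card k : ℝ) * p) ^ r.card *
      (K * 2 ^ (i + j) * (i + j) ^ K * w * Real.exp (-(S.nm r / Y)))) ≤
      Fintype.card C * (K * 2 ^ (i + j) * (i + j) ^ K * w) *
        (K₀ * (Y * (2 * mm) * (K * g X)) * (3 ^ n0 * ((lg X : ℝ) + 2) ^ n0)) := by
    have e1 : ∑ r ∈ P.powerset, Fintype.card C * (((Fintype.card k : ℝ) * p) ^ r.card *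
        (K * 2 ^ (i + j) * (i + j) ^ K * w * Real.exp (-(S.nm r / Y)))) =
        Fintype.card C * (K * 2 ^ (i + j) * (i + j) ^ K * w) *
        ∑ r ∈ P.powerset, ((Fintype.card k : ℝ) * p) ^ r.card * Real.exp (-(S.nm r / Y)) := by
      rw [mul_sum]
      exact sum_congr rfl fun r _ => by ring
    rw [e1]
    refine mul_le_mul_of_nonneg_left ?_ (by positivity)
    refine h1.trans ?_
    have hgY0 : 0 ≤ g Y := le_trans (by norm_num) (hH.g_one Y)
    have h9 : Y * min 1 Y * g Y ≤ Y * (2 * mm) * (K * g X) := by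
      have h10 : 0 ≤ min 1 Y := le_min (by norm_num) hY0.le
      gcongr
    have h11 : 0 ≤ Y * min 1 Y * g Y := by
      have h10 : 0 ≤ min 1 Y := le_min (by norm_num) hY0.le
      positivity
    refine mul_le_mul ?_ h3 (Real.exp_pos _).le ?_
    · exact mul_le_mul_of_nonneg_left h9 (by positivity)
    · have : 0 ≤ Y * (2 * mm) * (K * g X) := h11.trans h9
      positivity
  refine (mul_le_mul_of_nonneg_left h8 (by positivity)).trans ?_
  have h12 : (2 : ℝ) ^ (i + j) * Y = 2 * X := by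
    rw [hY]
    field_simp
  have h13 : (Fintype.card U : ℝ) * Fintype.card k * (Fintype.card C *
      (K * 2 ^ (i + j) * (i + j) ^ K * w) *
        (K₀ * (Y * (2 * mm) * (K * g X)) * (3 ^ n0 * ((lg X : ℝ) + 2) ^ n0))) =
      (C1 : ℝ) * ((lg X : ℝ) + 2) ^ n0 * (i + j) ^ K * w * mm * (X * g X) := by
    rw [hC1]
    push_cast
    linear_combination ((Fintype.card U : ℝ) * Fintype.card k * Fintype.card C * K ^ 2 * K₀ *
      (i + j) ^ K * w * 2 * mm * g X * 3 ^ n0 * ((lg X : ℝ) + 2) ^ n0) * h12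
  rw [h13]
  have h14 : (C1 : ℝ) ≤ ((C1 + n0 : ℕ) : ℝ) := by
    push_cast
    have : (0 : ℝ) ≤ n0 := Nat.cast_nonneg _
    linarith
  have h15 : ((lg X : ℝ) + 2) ^ n0 ≤ ((lg X : ℝ) + 2) ^ (C1 + n0) := by
    refine pow_le_pow_right₀ ?_ (by omega)
    have : (0 : ℝ) ≤ lg X := Nat.cast_nonneg _
    linarith
  have h16 : 0 ≤ X * g X := by positivity
  gcongr

theorem t_osbv : T_OSBV := t_osbv_of Pool.Agent.Helper62.TH.t_fou

end Pool.Agent.Helper60.TH
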